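import Mathlib

set_option autoImplicit false

namespace Pool.Agent.Results.MP_953c35_gt.Counter

open Set Filter

variable {X : Type} [TopologicalSpace X]

def OC (ℬ 𝒰 : Set (Set X)) : Prop :=
  (∀ U ∈ 𝒰, IsOpen U) ∧ ⋃₀ 𝒰 = univ ∧ univ ∉ 𝒰 ∧ ∀ B ∈ ℬ, ∃ U ∈ 𝒰, B ⊆ U

def GC (ℬ 𝒰 : Set (Set X)) : Prop :=
  𝒰.Infinite ∧ (∀ U ∈ 𝒰, IsOpen U) ∧ ⋃₀ 𝒰 = univ ∧ univ ∉ 𝒰 ∧
    ∀ B ∈ ℬ, {U ∈ 𝒰 | ¬ B ⊆ U}.Finite

def Markov (𝒜 : Set (Set X)) (P : Set (Set X) → Prop) : Prop :=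
  ∃ σ : Set X → ℕ → Set X, (∀ A ∈ 𝒜, ∀ n, IsOpen (σ A n) ∧ A ⊆ σ A n ∧ σ A n ≠ univ) ∧
    ∀ A : ℕ → Set X, (∀ n, A n ∈ 𝒜) → ¬ P (range fun n => σ (A n) n)

theorem result : ∃ (X : Type) (_ : TopologicalSpace X) (𝒜 ℬ : Set (Set X)),
    (∀ A ∈ 𝒜, ∀ A' ∈ 𝒜, ∃ A'' ∈ 𝒜, A ∪ A' ⊆ A'') ∧ (∀ A ∈ 𝒜, ∃ U, IsOpen U ∧ A ⊆ U ∧ U ≠ univ) ∧
    Markov 𝒜 (GC ℬ) ∧ ¬ Markov 𝒜 (OC ℬ) := by
  let 𝒜 : Set (Set ℝ) := {A | IsClosed A ∧ (A ∩ range Rat.cast).Finite}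
  obtain ⟨V, hV⟩ : ∃ V : ℕ → Set ℝ, (∀ i, IsOpen (V i) ∧ (V i).Nonempty) ∧
      ∀ O, IsOpen O → O.Nonempty → ∃ i, V i ⊆ O := by
    obtain ⟨V, hV⟩ := (TopologicalSpace.countable_countableBasis ℝ).exists_eq_range
      (((TopologicalSpace.isBasis_countableBasis ℝ).exists_subset_of_mem_open (mem_univ 0)
        isOpen_univ).imp fun _ h => h.1)
    refine ⟨V, fun i => ⟨TopologicalSpace.isOpen_of_mem_countableBasis (hV ▸ ⟨i, rfl⟩),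
      TopologicalSpace.nonempty_of_mem_countableBasis (hV ▸ ⟨i, rfl⟩)⟩, fun O h1 ⟨x, h2⟩ => ?_⟩
    obtain ⟨_, ⟨i, rfl⟩, -, h3⟩ := (hV ▸ TopologicalSpace.isBasis_countableBasis ℝ
      ).exists_subset_of_mem_open h2 h1
    exact ⟨i, h3⟩
  have h1 (A : Set ℝ) (hA : A ∈ 𝒜) (i : ℕ) : ∃ C, IsClosed C ∧ C ⊆ (insert 0 A)ᶜ ∧
      (interior C ∩ V i).Nonempty := by
    obtain ⟨q, h1, h2, h3⟩ := (Rat.denseRange_cast.sdiff_finite (hA.2.insert 0)).inter_open_nonempty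
      _ (hV.1 i).1 (hV.1 i).2
    obtain ⟨C, h4, h5, h6⟩ := exists_mem_nhds_isClosed_subset (x := q) (s := (insert 0 A)ᶜ)
      ((isClosed_singleton.union hA.1).isOpen_compl.mem_nhds fun h =>
        h3 (h.imp_right fun h => ⟨h, h2⟩))
    exact ⟨C, h5, h6, q, mem_interior_iff_mem_nhds.2 h4, h1⟩
  choose! C h1 h2 h3 using h1
  let σ (A : Set ℝ) (n : ℕ) := (⋃ i ≤ n, C A i)ᶜ
  have h4 (A) (hA : A ∈ 𝒜) (n : ℕ) : IsOpen (σ A n) ∧ insert 0 A ⊆ σ A n ∧ σ A n ≠ univ :=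
    ⟨((finite_le_nat n).isClosed_biUnion fun i _ => h1 A hA i).isOpen_compl,
      subset_compl_comm.1 (iUnion₂_subset fun i _ => h2 A hA i), fun h => (h3 A hA 0).elim
        fun x hx => (h ▸ mem_univ x : x ∈ σ A n) (mem_biUnion n.zero_le (interior_subset hx.1))⟩
  refine ⟨ℝ, inferInstance, 𝒜, range singleton, fun A h A' h' => ⟨_, ⟨h.1.union h'.1,
    (union_inter_distrib_right ..).symm ▸ h.2.union h'.2⟩, subset_rfl⟩, fun A h =>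
    ⟨_, (h4 A h 0).1, (subset_insert _ _).trans (h4 A h 0).2.1, (h4 A h 0).2.2⟩,
    ⟨σ, fun A h n => ⟨(h4 A h n).1, (subset_insert _ _).trans (h4 A h n).2.1, (h4 A h n).2.2⟩,
    fun A hA ⟨_, _, _, _, h⟩ => ?_⟩, fun ⟨τ, h5, h6⟩ => ?_⟩
  · have h5 {T : Set ℕ} (hT : T.Infinite) : Dense (⋃ n ∈ T, interior (σ (A n) n)ᶜ) :=
      dense_iff_inter_open.2 fun O k1 k2 => by
        obtain ⟨i, hi⟩ := hV.2 O k1 k2
        obtain ⟨n, k3, k4⟩ := hT.exists_gt i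
        obtain ⟨x, k5, k6⟩ := h3 _ (hA n) i
        exact ⟨x, hi k6, mem_biUnion k3 (interior_mono
          (fun _ h h' => h' (mem_biUnion k4.le h)) k5)⟩
    obtain ⟨x, hx⟩ := (dense_iInter_of_isOpen (fun m => isOpen_biUnion fun _ _ => isOpen_interior)
      fun m : ℕ => h5 (Ici_infinite m)).nonempty
    refine infinite_of_forall_exists_gt (s := {n | x ∉ σ (A n) n}) (fun m => ?_)
      (Finite.of_finite_fibers (fun n => σ (A n) n) ((h _ ⟨x, rfl⟩).subset ?_) ?_)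
    · obtain ⟨n, k1, k2⟩ := mem_iUnion₂.1 (mem_iInter.1 hx (m + 1))
      exact ⟨n, interior_subset (s := (σ (A n) n)ᶜ) k2, k1⟩
    · rintro _ ⟨n, hn, rfl⟩
      exact ⟨⟨n, rfl⟩, fun h => hn (h rfl)⟩
    rintro _ ⟨n, -, rfl⟩
    by_contra k
    obtain ⟨y, k1, k2⟩ := (h5 k).inter_open_nonempty _ (h4 _ (hA n) n).1
      ⟨0, (h4 _ (hA n) n).2.1 (Or.inl rfl)⟩
    obtain ⟨m, k3, k4⟩ := mem_iUnion₂.1 k2
    exact interior_subset k4 ((show σ (A m) m = σ (A n) n from k3.2) ▸ k1)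
  obtain ⟨q, hq⟩ := exists_surjective_nat ℚ
  have h7 (n : ℕ) : {(q n : ℝ)} ∈ 𝒜 :=
    ⟨isClosed_singleton, (finite_singleton _).subset inter_subset_left⟩
  let A : ℕ → Set ℝ := Nat.rec (⋃ n, τ {(q n : ℝ)} (n + 1))ᶜ fun n _ => {(q n : ℝ)}
  have h8 : ∀ n, A n ∈ 𝒜
    | 0 => ⟨(isOpen_iUnion fun n => (h5 _ (h7 n) _).1).isClosed_compl, finite_empty.subset
      fun _ ⟨h, r, e⟩ => (hq r).elim fun n hn =>
        h (mem_iUnion.2 ⟨n, (h5 _ (h7 n) _).2.1 (hn ▸ e.symm)⟩)⟩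
    | n + 1 => h7 n
  have h9 (x : ℝ) : ∃ n, x ∈ τ (A n) n := by_contra fun h => h ⟨0, (h5 _ (h8 0) 0).2.1
    fun h' => (mem_iUnion.1 h').elim fun n hn => h ⟨n + 1, hn⟩⟩
  exact h6 A h8 ⟨forall_mem_range.2 fun n => (h5 _ (h8 n) n).1, eq_univ_of_forall fun x =>
    (h9 x).elim fun n h => ⟨_, ⟨n, rfl⟩, h⟩, fun ⟨n, h⟩ => (h5 _ (h8 n) n).2.2 h,
    forall_mem_range.2 fun x => (h9 x).elim fun n h => ⟨_, ⟨n, rfl⟩, singleton_subset_iff.2 h⟩⟩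

end Pool.Agent.Results.MP_953c35_gt.Counter
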